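import Mathlib
import Pool.Agent.H65.Wiener.Defs
import Pool.Agent.H65.Wiener.Exc
import Pool.Agent.H65.Wiener.Broom

/-!
For `d ≥ 3` and `d + 1 ≤ n ≤ d - 2 + 4 ⌊√((d - 1) / 2)⌋`, the maximum of the Wiener index over the
connected graphs of order `n` and diameter `d` is attained by a double broom.

The proof: let `v 0, …, v d` be a geodesic and `m = n - d - 1` the number of other vertices. If every
vertex is within distance `⌊d / 2⌋` of one of the (at most two) centres of the geodesic, a
breadth-first forest towards the centre organises the other vertices in classes that hang off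
the geodesic, and counting pairs with a numeric inequality for each class gives the bound. If some
vertex is farther from the centre then `2 m ≥ d`, which leaves only `(d, n) = (9, 15), (10, 16)`
with all other vertices on two chains, and this is a finite check.
-/

namespace Pool.Agent.H65.Wiener

open Finset

theorem upper {V : Type*} [Fintype V] (G : SimpleGraph V) (hG : G.Connected) (d m : ℕ)
    (hd : 3 ≤ d) (hdiam : G.diam = d) (hcard : Fintype.card V = d + 1 + m)
    (hj : ∃ j : ℤ, (m : ℤ) + 3 ≤ 4 * j ∧ 2 * j * j ≤ ((d : ℤ) - 2) + 1) :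
    ∑ x, ∑ y, (G.dist x y : ℤ) ≤ UB d m := by
  classical
  have hne : Nonempty V := hG.nonempty
  obtain ⟨u, w, huw⟩ := G.exists_dist_eq_diam
  have hle : ∀ x y, G.dist x y ≤ d := by
    intro x y
    rw [← hdiam]
    exact SimpleGraph.dist_le_diam (SimpleGraph.connected_iff_ediam_ne_top.1 hG)
  obtain ⟨v, hv0, hvd, hvg⟩ := geo_exists hG u w
  rw [huw, hdiam] at hvg
  have hv : Geo G v d := hvg
  have hm : (offP v d).card = m := by
    have := card_offP hv
    rw [hcard] at this
    push_cast at this
    omega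
  rw [← hm] at hj ⊢
  by_cases hf : ∀ x, cdist G v d x ≤ d / 2
  · exact good_bound hG hd hv hf hj
  · push Not at hf
    obtain ⟨x, hx⟩ := hf
    obtain ⟨a, b, i0, j0, k, l, t, hbad⟩ := bad_of_far hG hv hle x hx
    have hsub : (range (i0 + (j0 - 1 - t))).image (Bad.enum a b i0 t) ⊆ offP v d := by
      intro y hy
      rw [mem_image] at hy
      obtain ⟨s, hs, rfl⟩ := hy
      rw [mem_range] at hs
      rw [mem_offP]
      exact hbad.notOnP hs
    have hc := card_le_card hsub
    rw [card_image_of_injOn hbad.inj, card_range] at hc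
    have hti := hbad.hti
    have htj := hbad.htj
    have hi0 := hbad.hi0
    have hj0 := hbad.hj0
    have hkl := hbad.hkl
    have hl := hbad.hl
    have hkd := hbad.hkd
    have hld := hbad.hld
    have h2 : d ≤ 2 * (offP v d).card := by omega
    obtain ⟨j, hj1, hj2⟩ := hj
    have hjlt : j < 3 := by
      by_contra h
      nlinarith
    have hjgt : 1 < j := by
      by_contra h
      have : j = 1 ∨ j ≤ 0 := by omega
      rcases this with rfl | h
      · omega
      · omega
    have hj2' : j = 2 := by omega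
    subst hj2'
    have hd' : d = 9 ∨ d = 10 := by omega
    exact bad_bound hG hd' hv (by omega) hbad

end Pool.Agent.H65.Wiener

namespace Pool.Agent.Results.MP_ed5641_co.WienerDoubleBroom

open Pool.Agent.H65.Wiener

universe u

/-- For all `d ≥ 3` and `d + 1 ≤ n ≤ d - 2 + 4 ⌊√((d - 1) / 2)⌋`, the maximum of the Wiener index
over all connected graphs of order `n` and diameter `d` is attained by a double broom. -/
theorem result (d n : ℕ) (hd : 3 ≤ d) (hn : d + 1 ≤ n)
    (hn' : n ≤ d - 2 + 4 * ⌊Real.sqrt (((d : ℝ) - 1) / 2)⌋₊) :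
    ∃ B : SimpleGraph (Fin n), IsDoubleBroom B ∧ B.diam = d ∧
      ∀ (V : Type u) [Fintype V] (G : SimpleGraph V), G.Connected → Fintype.card V = n →
        G.diam = d → wiener G ≤ wiener B := by
  obtain ⟨m, rfl⟩ : ∃ m, n = d + 1 + m := ⟨n - (d + 1), by omega⟩
  refine ⟨broomG d (m / 2) (d + 1 + m), broomG_doubleBroom hd hn, broomG_diam hd hn, ?_⟩
  intro V _ G hG hcard hdiam
  obtain ⟨j, hjdef⟩ : ∃ j, j = ⌊Real.sqrt (((d : ℝ) - 1) / 2)⌋₊ := ⟨_, rfl⟩
  rw [← hjdef] at hn'
  have hj : ∃ j : ℤ, (m : ℤ) + 3 ≤ 4 * j ∧ 2 * j * j ≤ ((d : ℤ) - 2) + 1 := by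
    refine ⟨j, by omega, ?_⟩
    have hd3 : (3 : ℝ) ≤ d := by exact_mod_cast hd
    have h1 : (j : ℝ) ≤ Real.sqrt (((d : ℝ) - 1) / 2) := by
      rw [hjdef]; exact Nat.floor_le (Real.sqrt_nonneg _)
    have h2 : (j : ℝ) ^ 2 ≤ ((d : ℝ) - 1) / 2 := by
      have h3 := pow_le_pow_left₀ (Nat.cast_nonneg j) h1 2
      rwa [Real.sq_sqrt (by linarith)] at h3
    have h4 : 2 * (j : ℝ) * j ≤ (d : ℝ) - 2 + 1 := by nlinarith
    exact_mod_cast h4
  have h1 := upper G hG d m hd hdiam hcard hj
  rw [← broomG_W hd] at h1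
  have h2 : 2 * wiener G ≤ 2 * wiener (broomG d (m / 2) (d + 1 + m)) := by
    rw [two_wiener, two_wiener]
    exact_mod_cast h1
  omega

end Pool.Agent.Results.MP_ed5641_co.WienerDoubleBroom
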